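import Pool.Agent.N375.AV.D
import Pool.Agent.Results.MP_b454d1_nt.RiveraWindows

/-!
# A prime between `√N` and `4 √N` plus an almost prime, for all even numbers near values of additive functions and of
# their compositions

Let `F = f_1 ∘ ⋯ ∘ f_k` be a composition of functions dominated by the largest prime factor: for example additive functions
`f` with `f (q^j) ≤ C q^j` at the prime powers, with different values at different large primes (the sum of the prime factors),
the largest prime factor itself, and Kempner's function. Let `G` have steps bounded below by a positive constant and growth at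
most `v^d`, for example `G v = v`. For all `m ≤ x` but `K x exp (- c (log x)^(1 / (k + 1)))` ALL even `N` with
`|N - G (F m)| ≤ F(m)^κ` have at least `δ 𝔖(N) √N / (log N) ^ 2` primes `p` with `√N < p < 4 √N` such that `N - p` has at most
three prime factors, if `d / 2 + κ < 1`, and at most two prime factors, if `13 d / 22 + κ < 1`. The values of `F` are taken with
very large multiplicities and `F(m)` is in general much smaller than `m`, and so this does not follow from the size of the
exceptional set.

Proof. The exceptional set has a power saving by the starting theorem `SqrtWindowFewExceptions` of this problem; the preimage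
of a set with at most `K X exp (- c (log X)^β)` elements up to `X` under a function dominated by the largest prime factor has at
most `K' X exp (- c' (log X)^(β / (1 + β)))` elements (`Pool/Agent/N375/AV`).
-/

set_option autoImplicit false

namespace Pool.Agent.Results.MP_b454d1_nt.AdditiveValues

open Finset
open Pool.Agent.N733.TG (Expanding expanding_pow)
open Pool.Agent.N375.AV (PD comp good_nat pd_additive pd_largest pd_kempner)
open Pool.Agent.Results.MP_b454d1_nt.RiveraWindows (sing inSqrt Exc count)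

open Classical in
/-- **Rivera's window near the values of additive functions.** Let `r = 3`, `1 / 2 ≤ u < 1`, `ζ = 2 u / 5`, or `r = 2`,
`6 / 11 ≤ u < 1`, `ζ = u / 4`, and `s > 2 u - 1 / 2`. There is `δ > 0` such that for every composition
`F = f_1 ∘ ⋯ ∘ f_k` of functions dominated by the largest prime factor (`comp fs`, `PD`), every `G` with steps `≥ a > 0` and
growth at most `v^d`, and `κ ≥ 0`, `d s + κ < 1`, there are `c > 0` and `K` such that for all `x ≥ 1`, for all `m ≤ x` but
`K x exp (- c (log x)^(1 / (k + 1)))`, ALL even `n ≥ 1` with `|n - G (F m)| ≤ F(m)^κ` have at least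
`δ 𝔖(n) √n / (log n) ^ 2` primes `p` with `√n < p < 4 √n` such that `n - p` has at most `r` prime factors, all of them at
least `n ^ ζ / 2`. Examples: additive functions with `f (q^j) ≤ C q^j` at the prime powers and different values at different
large primes; the largest prime factor; Kempner's function; `G = α v^d`, `α > 0`, `d ≥ 1`. -/
theorem result :
    (∀ (r : ℕ) (u ζ s : ℝ),
      ((r = 3 ∧ 1 / 2 ≤ u ∧ ζ = 2 / 5 * u) ∨ (r = 2 ∧ 6 / 11 ≤ u ∧ ζ = u / 4)) → u < 1 →
      2 * u - 1 / 2 < s → ∃ δ : ℝ, 0 < δ ∧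
      ∀ fs : List (ℕ → ℕ), (∀ f ∈ fs, PD f) → ∀ (G : ℕ → ℝ) (d : ℝ), Expanding G d →
      ∀ κ : ℝ, 0 ≤ κ → d * s + κ < 1 → ∃ c K : ℝ, 0 < c ∧ ∀ N : ℕ, 1 ≤ N →
      ({m : ℕ | 1 ≤ m ∧ m ≤ N ∧ ¬ ∀ n : ℕ, 1 ≤ n → Even n → |(n : ℝ) - G (comp fs m)| ≤ (comp fs m : ℝ) ^ κ →
        δ * sing n * (√(n : ℝ) / Real.log n ^ 2) ≤ (inSqrt r ((n : ℝ) ^ ζ / 2) n : ℝ)}.ncard : ℝ) ≤
        K * N * Real.exp (-(c * Real.log N ^ ((1 : ℝ) / (fs.length + 1))))) ∧
    (∀ f : ℕ → ℕ, (∀ a b : ℕ, Nat.Coprime a b → f (a * b) = f a + f b) →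
      (∃ C : ℕ, ∀ q j : ℕ, q.Prime → 1 ≤ j → f (q ^ j) ≤ C * q ^ j) →
      (∃ P : ℕ, ∀ p q : ℕ, p.Prime → q.Prime → P ≤ p → P ≤ q → f p = f q → p = q) → PD f) ∧
    (PD (fun n => n.primeFactors.sup id) ∧ PD (fun n => sInf {k : ℕ | n ∣ k.factorial})) ∧
    ∀ α d : ℝ, 0 < α → 1 ≤ d → Expanding (fun v => α * (v : ℝ) ^ d) d := by
  refine ⟨fun r u ζ s hpar hu hs => ?_, fun f a1 a2 a3 => pd_additive a1 a2 a3, ⟨pd_largest, pd_kempner⟩,
    fun α d hα hd => expanding_pow hα hd⟩
  obtain ⟨δ, hδ, hcount⟩ := count r u ζ s hpar hu hs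
  refine ⟨δ, hδ, fun fs hfs G d hG κ hκ h1 => ?_⟩
  have hs0 : 0 ≤ s := by
    rcases hpar with ⟨-, h, -⟩ | ⟨-, h, -⟩
    · linarith
    · linarith
  exact good_nat (fun n => Even n)
    (fun n => δ * sing n * (√(n : ℝ) / Real.log n ^ 2) ≤ (inSqrt r ((n : ℝ) ^ ζ / 2) n : ℝ)) fs hfs hG
    (s := s) (κ := κ) hs0 hκ h1 (fun ε hε => by
      obtain ⟨C, hC⟩ := hcount ε hε
      refine ⟨C, fun X hX => le_trans (le_of_eq ?_) (hC X hX)⟩
      rw [← Set.ncard_coe_finset]
      congr 2
      ext t
      simp only [Set.mem_ofPred_eq, Finset.coe_filter, Finset.mem_Ioc, Nat.succ_le_iff, Exc, not_le]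
      exact and_assoc.symm)

end Pool.Agent.Results.MP_b454d1_nt.AdditiveValues
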