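import Pool.Agent.Zk73.OR.F
import Pool.Agent.Results.MP_b454d1_nt.RiveraWindows

/-!
# A prime between `√n` and `4 √n` plus an almost prime, for all even numbers near multiplicative orders

Let `G` have steps bounded below by a positive constant and growth at most `v^d`, for example `G(v) = α v^d`, and
`θ = d s + κ`, where `s > 1 / 2` (`r = 3`) or `s > 13 / 22` (`r = 2`). ALL even `n` with `|n - G w| ≤ w^κ` have at least
`δ 𝔖(n) √n / (log n) ^ 2` primes `p` with `√n < p < 4 √n` such that `n - p` has at most `r` prime factors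

* for `w` the multiplicative order of `a` modulo `p` (the period length of `1 / p` in base `a`), for all integers `a` with
  `2 ≤ |a| ≤ p ^ c`, `c < 1`, and all primes `p ≤ N` but `O (N ^ (1 - η))`, if `θ < 1`,
* for every divisor `w ≥ m ^ δ'` of every integer near `m`, for all `m ≤ N` but `O (N ^ (1 - η))`, if `θ < 1`,
* for EVERY `w ≤ N ^ B` with `gcd (w, p - 1) ≥ p ^ (1 - l)` for all large primes `p` dividing `m` exactly once, for all
  `m ≤ N` but `N / (log N) ^ A`, if `B θ + l < 1`,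
* for EVERY exponent `w ≤ N ^ B` with `m ∣ a ^ w - 1` for some `a` with `2 ≤ |a| ≤ exp (c' √(log N))`, for all `m ≤ N` but
  `N / (log N) ^ A`, if `B θ < 1 / 2`.

The tool (`Pool/Agent/Zk73/OR`): a set with `O(X^θ)` elements up to `X` is avoided by the orders modulo almost all primes and by
the large divisors of almost all integers if `θ < 1`; and outside a set of `N / (log N)^A` numbers `m ≤ N`, every `w ≤ N^B` has
`gcd (w, p - 1) ≥ p^(1 - l)` for all large `p ∣ m` for at most `N^(l + ε)` of the `m`. For every `l > 0`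
all multiples of Carmichael's function `λ(m)` are among these `w`; so this extends the tool `N790/CM` of the starting files.
-/

set_option autoImplicit false

namespace Pool.Agent.Results.MP_b454d1_nt.MultiplicativeOrders

open Finset
open Pool.Agent.N733.TG (Expanding expanding_pow)
open Pool.Agent.Zk73.OR (Everywhere keep_good_nat)
open Pool.Agent.Results.MP_b454d1_nt.RiveraWindows (sing inSqrt Exc count)

/-- **Rivera's window near multiplicative orders.** Let `r = 3`, `1 / 2 ≤ u < 1`, `ζ = 2 u / 5`, or `r = 2`,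
`6 / 11 ≤ u < 1`, `ζ = u / 4`, and `s > 2 u - 1 / 2`. There is `δ > 0` such that the following holds. Let `G` have steps
`≥ a > 0` and growth at most `v^d`, for example `G v = α v ^ d` with `α > 0`, `d ≥ 1`, and let `0 ≤ κ ≤ 1`. The four statements
of `Everywhere`, about divisors of almost all integers, orders modulo almost all primes, numbers sharing large divisors
with `p - 1` for the large primes `p` dividing `m`, and exponents `w` with `m ∣ a ^ w - 1`, hold with `θ = d s + κ` for the
property: ALL even `n ≥ 1` with `|n - G w| ≤ w^κ` have at least `δ 𝔖(n) √n / (log n) ^ 2` primes `p` with `√n < p < 4 √n` such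
that `n - p` has at most `r` prime factors, all of them at least `n ^ ζ / 2`. -/
theorem result :
    (∀ (r : ℕ) (u ζ s : ℝ),
      ((r = 3 ∧ 1 / 2 ≤ u ∧ ζ = 2 / 5 * u) ∨ (r = 2 ∧ 6 / 11 ≤ u ∧ ζ = u / 4)) → u < 1 →
      2 * u - 1 / 2 < s → ∃ δ : ℝ, 0 < δ ∧
      ∀ (G : ℕ → ℝ) (d : ℝ), Expanding G d → ∀ κ : ℝ, 0 ≤ κ → κ ≤ 1 →
      Everywhere (d * s + κ) (fun w => ∀ n : ℕ, 1 ≤ n → Even n → |(n : ℝ) - G w| ≤ (w : ℝ) ^ κ →
            δ * sing n * (√(n : ℝ) / Real.log n ^ 2) ≤ (inSqrt r ((n : ℝ) ^ ζ / 2) n : ℝ))) ∧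
    ∀ α d : ℝ, 0 < α → 1 ≤ d → Expanding (fun v => α * (v : ℝ) ^ d) d := by
  classical
  refine ⟨fun r u ζ s hpar hu hs => ?_, fun α d hα hd => expanding_pow hα hd⟩
  obtain ⟨δ, hδ, hcount⟩ := count r u ζ s hpar hu hs
  refine ⟨δ, hδ, fun G d hG κ hκ hκ1 => ?_⟩
  have hs0 : 0 ≤ s := by
    rcases hpar with ⟨-, h, -⟩ | ⟨-, h, -⟩
    · linarith
    · linarith
  refine keep_good_nat Even (fun n => δ * sing n * (√(n : ℝ) / Real.log n ^ 2) ≤ (inSqrt r ((n : ℝ) ^ ζ / 2) n : ℝ))
    hG (s := s) (κ := κ) hs0 hκ hκ1 (fun ε hε => ?_)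
  obtain ⟨C, hC⟩ := hcount ε hε
  refine ⟨C, fun X hX => le_trans ?_ (hC X hX)⟩
  rw [← Set.ncard_coe_finset]
  apply Nat.cast_le.2
  refine Set.ncard_le_ncard ?_ (finite_toSet _)
  rintro t ⟨a1, a2, a3, a4⟩
  rw [mem_coe, mem_filter, mem_Ioc]
  exact ⟨⟨a1, a2⟩, a3, not_le.1 a4⟩

end Pool.Agent.Results.MP_b454d1_nt.MultiplicativeOrders
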