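import Pool.Agent.N760.IT.C
import Pool.Agent.Results.MP_b454d1_nt.RiveraWindows

/-!
# A prime between `√N` and `4 √N` plus an almost prime, for all even numbers near almost all orbits of Euler's function

Let `φ_k` be the `k`-th iterate of Euler's function, `φ_0(m) = m`. Let `f` be a positive multiplicative function of at most
polynomial growth such that `f p ≤ M p` for the large primes `p`, with different values at different large primes; for
example the identity, Euler's function or the sum of the divisors. Let `G` have steps bounded below by a positive constant and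
growth at most `v^d`, `d ≥ 1`; for example `G v = α v^d`. With some `K(m)` tending to infinity, for almost all `m` and ALL
`k ≤ K(m)`, ALL even `N` with `|N - G (f (φ_k m))| ≤ f(φ_k(m))^κ` have at least `δ 𝔖(N) √N / (log N) ^ 2` primes `p` with
`√N < p < 4 √N` such that `N - p` has at most three prime factors, if `d / 2 + κ < 1`, and at most two prime factors, if
`13 d / 22 + κ < 1`. The iterates of Euler's function are not multiplicative, their values form a thin set and are taken with
very large multiplicities, and so this does not follow from the size of the exceptional set; for `k = 0` see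
`MultiplicativeValues`.

Proof. The exceptional set has a power saving by the starting theorem `SqrtWindowFewExceptions` of this problem. Let `P` be the
largest prime factor of `m`; `P - 1` divides `φ(m)`, and so on: outside a set of density `0`, `f(φ_k(m))` is determined by few
data, and falls rarely into a set with a power saving (`Pool.Agent.N760.IT`).
-/

set_option autoImplicit false

namespace Pool.Agent.Results.MP_b454d1_nt.TotientOrbits

open Finset Filter
open Pool.Agent.N733.TG (LM Expanding lm_totient lm_sigma expanding_pow)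
open Pool.Agent.N760.IT (orb lm_id orbit_good_nat)
open Pool.Agent.N826.IT.Orb (AlmostAll almostAll_mono)
open Pool.Agent.Results.MP_b454d1_nt.RiveraWindows (sing inSqrt Exc count)

open Classical in
/-- **Rivera's window near the orbits of Euler's function.** `orb f k m` is `f(φ_k(m))`, `φ_k` the `k`-th iterate of Euler's
function, `φ_0(m) = m`. Let `r = 3`, `1 / 2 ≤ u < 1`, `ζ = 2 u / 5`, or `r = 2`, `6 / 11 ≤ u < 1`, `ζ = u / 4`, and
`s > 2 u - 1 / 2`. There is `δ > 0` such that the following holds. Let `f` be multiplicative and positive, of at most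
polynomial growth, with `f p ≤ M p` at the large primes, and injective there. Let `G` have steps `≥ a > 0` and growth at most
`v^d`, and let `κ ≥ 0`, `d s + κ < 1`. With some `K(m)` tending to infinity, for almost all `m` (all `m ≤ x` but `o(x)`), for
all `k ≤ K(m)`, ALL even `n ≥ 1` with `|n - G (f (φ_k m))| ≤ f(φ_k(m))^κ` have at least `δ 𝔖(n) √n / (log n) ^ 2` primes `p`
with `√n < p < 4 √n` such that `n - p` has at most `r` prime factors, all of them at least `n ^ ζ / 2`. The identity, Euler's
function and the sum of the divisors are examples of such functions `f`, and `α v^d` with `α > 0`, `d ≥ 1` is an example of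
`G`. -/
theorem result :
    (∀ (r : ℕ) (u ζ s : ℝ),
      ((r = 3 ∧ 1 / 2 ≤ u ∧ ζ = 2 / 5 * u) ∨ (r = 2 ∧ 6 / 11 ≤ u ∧ ζ = u / 4)) → u < 1 →
      2 * u - 1 / 2 < s → ∃ δ : ℝ, 0 < δ ∧
      ∀ f : ℕ → ℕ, LM f → ∀ (G : ℕ → ℝ) (d : ℝ), Expanding G d → ∀ κ : ℝ, 0 ≤ κ → d * s + κ < 1 →
      ∃ K : ℕ → ℕ, Tendsto K atTop atTop ∧ AlmostAll (fun m => ∀ k ≤ K m, ∀ n : ℕ, 1 ≤ n → Even n →
        |(n : ℝ) - G (orb f k m)| ≤ (orb f k m : ℝ) ^ κ →
        δ * sing n * (√(n : ℝ) / Real.log n ^ 2) ≤ (inSqrt r ((n : ℝ) ^ ζ / 2) n : ℝ))) ∧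
    (LM (fun m => m) ∧ LM Nat.totient ∧ LM (fun m => ∑ d ∈ m.divisors, d)) ∧
    ∀ α d : ℝ, 0 < α → 1 ≤ d → Expanding (fun v => α * (v : ℝ) ^ d) d := by
  refine ⟨fun r u ζ s hpar hu hs => ?_, ⟨lm_id, lm_totient, lm_sigma⟩, fun α d hα hd => expanding_pow hα hd⟩
  obtain ⟨δ, hδ, hcount⟩ := count r u ζ s hpar hu hs
  refine ⟨δ, hδ, fun f hf G d hG κ hκ h1 => ?_⟩
  have hs0 : 0 ≤ s := by
    rcases hpar with ⟨-, h, -⟩ | ⟨-, h, -⟩
    · linarith
    · linarith
  obtain ⟨K, hK, hK2⟩ := orbit_good_nat (fun n => Even n)
    (fun n => δ * sing n * (√(n : ℝ) / Real.log n ^ 2) ≤ (inSqrt r ((n : ℝ) ^ ζ / 2) n : ℝ)) hf hG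
    (s := s) (κ := κ) hs0 hκ h1 (fun ε hε => by
      obtain ⟨C, hC⟩ := hcount ε hε
      refine ⟨C, fun X hX => le_trans (le_of_eq ?_) (hC X hX)⟩
      rw [← Set.ncard_coe_finset]
      congr 2
      ext t
      simp only [Set.mem_ofPred_eq, Finset.coe_filter, Finset.mem_Ioc, Nat.succ_le_iff, Exc, not_le]
      exact and_assoc.symm)
  exact ⟨K, hK, almostAll_mono hK2 (fun m hm k hk n hn he hw => hm k hk n hn he hw)⟩

end Pool.Agent.Results.MP_b454d1_nt.TotientOrbits
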