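import Pool.Agent.R942.HX.Rand
import Pool.Agent.Results.MP_b454d1_nt.RiveraWindows

/-!
# A prime between `√N` and `4 √N` plus an almost prime, for all even numbers near typical points and in random sets

Let `r = 3`, `1 / 2 ≤ u < 1` or `r = 2`, `6 / 11 ≤ u < 1`, and `s > 2 u - 1 / 2` (so `s > 1 / 2` or `s > 13 / 22`). Call an
even number `N` good if there are at least `δ 𝔖(N) √N / (log N) ^ 2` primes `p` with `√N < p < 4 √N` such that `N - p` has at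
most `r` prime factors, none of them small. Let `φ` be ANY map from the natural numbers to a metric space `Y`, for instance
`φ(N) = N α mod 1`, the sequence of the digits of `N` in the `b`-adic numbers, or a random point.

(1) For all `z` in `Y` outside a set of Hausdorff dimension at most `s / v`, all but finitely many of the even `N` with
`dist (φ(N), z) ≤ N ^ (-v)` are good. (2) Let `X_i` be random points of `Y` with any joint distribution such that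
`P (dist (X_i, y) ≤ r) ≤ A r ^ t`; almost surely all but finitely many of the even `N` with `dist (φ_i(N), X_i) ≤ N ^ (-v)` for
some `i` in a set `F(N)` of at most `L N ^ w` indices are good, if `t v - w > s`. (3) The same for arbitrary sets attached to
the numbers, for (outer) measures and for Hausdorff dimensions.

Proof. Borel-Cantelli lemmas for the exceptional set, which has a power saving by the starting theorem
`SqrtWindowFewExceptions` of this problem.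
-/

set_option autoImplicit false

namespace Pool.Agent.Results.MP_b454d1_nt.TypicalPoints

open Finset MeasureTheory
open Pool.Agent.R942.HX
open Pool.Agent.Results.MP_b454d1_nt.RiveraWindows (sing inSqrt Exc count)

/-- there are at least `δ 𝔖(N) √N / (log N) ^ 2` primes `p` with `√N < p < 4 √N` such that `N - p` has at most `r` prime
factors, all of them at least `N ^ ζ / 2` -/
def Good (r : ℕ) (ζ δ : ℝ) (N : ℕ) : Prop :=
  δ * sing N * (√(N : ℝ) / Real.log N ^ 2) ≤ (inSqrt r ((N : ℝ) ^ ζ / 2) N : ℝ)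

/-- the positive even numbers which are not good -/
def Bad (r : ℕ) (ζ δ : ℝ) : Set ℕ := {N | 1 ≤ N ∧ Even N ∧ ¬ Good r ζ δ N}

open Classical in
lemma sparse {r : ℕ} {ζ δ s : ℝ} (h : ∀ ε : ℝ, 0 < ε → ∃ C : ℝ, ∀ X : ℕ, 1 ≤ X →
    (((Ioc 0 X).filter (fun t => t ∈ Exc r ζ δ)).card : ℝ) ≤ C * (X : ℝ) ^ (s + ε)) (hs : 0 ≤ s) :
    Sparse (fun N : ℕ => (N : ℝ)) (Bad r ζ δ) s := by
  refine ⟨fun N hN => (Nat.one_le_cast (α := ℝ)).2 hN.1, fun ε hε => ?_⟩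
  obtain ⟨C, hC⟩ := h ε hε
  refine ⟨|C|, fun X hX => ?_⟩
  have hfin : {t : ℕ | t ∈ Bad r ζ δ ∧ (t : ℝ) ≤ X}.Finite := by
    refine (Set.finite_Iic ⌊X⌋₊).subset ?_
    rintro t ⟨-, ht⟩
    exact Nat.le_floor ht
  refine ⟨hfin, ?_⟩
  have hX0 : 0 ≤ X := by linarith
  have h1 : 1 ≤ ⌊X⌋₊ := Nat.le_floor (by rw [Nat.cast_one]; exact hX)
  have hsub : {t : ℕ | t ∈ Bad r ζ δ ∧ (t : ℝ) ≤ X} ⊆
      (((Ioc 0 ⌊X⌋₊).filter (fun t => t ∈ Exc r ζ δ) : Finset ℕ) : Set ℕ) := by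
    rintro t ⟨⟨h2, h3, h4⟩, h5⟩
    rw [mem_coe, mem_filter, mem_Ioc]
    exact ⟨⟨h2, Nat.le_floor h5⟩, h3, not_le.1 h4⟩
  have h2 : ({t : ℕ | t ∈ Bad r ζ δ ∧ (t : ℝ) ≤ X}.ncard : ℝ) ≤
      (((Ioc 0 ⌊X⌋₊).filter (fun t => t ∈ Exc r ζ δ)).card : ℝ) := by
    have h3 := Set.ncard_le_ncard hsub (finite_toSet _)
    rw [Set.ncard_coe_finset] at h3
    exact_mod_cast h3
  refine (h2.trans (hC _ h1)).trans ?_
  have h3 : (⌊X⌋₊ : ℝ) ≤ X := Nat.floor_le hX0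
  calc C * (⌊X⌋₊ : ℝ) ^ (s + ε) ≤ |C| * (⌊X⌋₊ : ℝ) ^ (s + ε) := by
        apply mul_le_mul_of_nonneg_right (le_abs_self C) (by positivity)
    _ ≤ |C| * X ^ (s + ε) := by
        apply mul_le_mul_of_nonneg_left _ (abs_nonneg C)
        exact Real.rpow_le_rpow (Nat.cast_nonneg _) h3 (by linarith)

/-- **Theorem.** Let `r = 3`, `1 / 2 ≤ u < 1`, `ζ = 2 u / 5`, or `r = 2`, `6 / 11 ≤ u < 1`, `ζ = u / 4`, and
`s > 2 u - 1 / 2`. There is `δ > 0` such that the following holds for the even numbers that are not good (`Bad r ζ δ`).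
(1) `φ : ℕ → Y` any map to a metric space, `v > 0`: there is a set `Z ⊆ Y` of Hausdorff dimension at most `s / v` such that for
all `z ∉ Z` all but finitely many of the even `N ≥ 1` with `dist (φ(N), z) ≤ N ^ (-v)` are good. (2) `X_i` random points of a
(pseudo)metric space `Y` with any joint distribution and `P (dist (X_i, y) ≤ ρ) ≤ A ρ ^ t`, `φ_i : ℕ → Y` any maps, `F(N)` sets
of at most `L N ^ w` indices, `s < t v - w`: almost surely all but finitely many of the even `N ≥ 1` with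
`dist (X_i, φ_i(N)) ≤ N ^ (-v)` for some `i ∈ F(N)` are good. (3) `μ` any outer measure on a set `Y`, `B(N, n)` sets with
`∑_n μ (B(N, n)) ≤ C N ^ (-η)`, `η > s`: for `μ`-almost all `z` there are only finitely many pairs `(N, n)`, `N` bad, with
`z ∈ B(N, n)`. (4) `B(N, n)` sets in a metric space with `∑_n (diam B(N, n)) ^ t ≤ C N ^ (-η)`, `t > 0`, `η > s`: the same
for all `z` outside a set of Hausdorff dimension at most `t`. -/
theorem result (r : ℕ) (u ζ s : ℝ)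
    (hpar : (r = 3 ∧ 1 / 2 ≤ u ∧ ζ = 2 / 5 * u) ∨ (r = 2 ∧ 6 / 11 ≤ u ∧ ζ = u / 4)) (hu : u < 1)
    (hs : 2 * u - 1 / 2 < s) : ∃ δ : ℝ, 0 < δ ∧
    (∀ (Y : Type) [MetricSpace Y] (φ : ℕ → Y) (v : ℝ), 0 < v → ∃ Z : Set Y, dimH Z ≤ ENNReal.ofReal (s / v) ∧
      ∀ z ∉ Z, ∃ N₀ : ℕ, ∀ N : ℕ, N₀ ≤ N → Even N → dist (φ N) z ≤ (N : ℝ) ^ (-v) → Good r ζ δ N) ∧
    (∀ (Y Ω ι : Type) [PseudoMetricSpace Y] [MeasurableSpace Ω] (P : Measure Ω) (X : ι → Ω → Y) (φ : ι → ℕ → Y)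
      (F : ℕ → Finset ι) (A L t w v : ℝ), s < t * v - w →
      (∀ i y ρ, 0 < ρ → P {ω | dist (X i ω) y ≤ ρ} ≤ ENNReal.ofReal (A * ρ ^ t)) →
      (∀ N, ((F N).card : ℝ) ≤ L * (N : ℝ) ^ w) →
      ∀ᵐ ω ∂P, ∃ N₀ : ℕ, ∀ N : ℕ, N₀ ≤ N → Even N →
        (∃ i ∈ F N, dist (X i ω) (φ i N) ≤ (N : ℝ) ^ (-v)) → Good r ζ δ N) ∧
    (∀ (Y : Type) (μ : OuterMeasure Y) (B : ℕ → ℕ → Set Y) (η C : ℝ), s < η →
      (∀ N : ℕ, 1 ≤ N → ∑' n, μ (B N n) ≤ ENNReal.ofReal (C * (N : ℝ) ^ (-η))) →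
      μ {z : Y | {p : ℕ × ℕ | p.1 ∈ Bad r ζ δ ∧ z ∈ B p.1 p.2}.Infinite} = 0) ∧
    (∀ (Y : Type) [EMetricSpace Y] (B : ℕ → ℕ → Set Y) (t η C : ℝ), 0 < t → s < η →
      (∀ N : ℕ, 1 ≤ N → ∑' n, Metric.ediam (B N n) ^ t ≤ ENNReal.ofReal (C * (N : ℝ) ^ (-η))) →
      dimH {z : Y | {p : ℕ × ℕ | p.1 ∈ Bad r ζ δ ∧ z ∈ B p.1 p.2}.Infinite} ≤ ENNReal.ofReal t) := by
  obtain ⟨δ, hδ, hcount⟩ := count r u ζ s hpar hu hs
  have hs0 : 0 ≤ s := by
    rcases hpar with ⟨-, h, -⟩ | ⟨-, h, -⟩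
    · linarith
    · linarith
  have hS := sparse hcount hs0
  have hfin : ∀ {S : Set ℕ}, {N | N ∈ Bad r ζ δ ∧ N ∈ S}.Finite →
      ∃ N₀ : ℕ, ∀ N : ℕ, N₀ ≤ N → Even N → N ∈ S → Good r ζ δ N := by
    intro S h
    obtain ⟨M, hM⟩ := h.bddAbove
    refine ⟨M + 1, fun N hN he hNS => ?_⟩
    by_contra hcon
    have := hM ⟨⟨by omega, he, hcon⟩, hNS⟩
    omega
  refine ⟨δ, hδ, fun Y _ φ v hv => ?_, fun Y Ω ι _ _ P X φ F A L t w v hv hX hF => ?_,
    fun Y μ B η C hη h => hS.null hs0 μ B hη fun N hN => h N hN.1,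
    fun Y _ B t η C ht hη h => hS.dim hs0 B ht hη fun N hN => h N hN.1⟩
  · refine ⟨_, hS.dim_map hs0 φ hv, fun z hz => ?_⟩
    rw [Set.mem_ofPred_eq, Set.not_infinite] at hz
    exact hfin hz
  · filter_upwards [hS.random hs0 P X φ F hX (fun N _ => hF N) hv] with ω hω
    exact hfin hω

end Pool.Agent.Results.MP_b454d1_nt.TypicalPoints
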